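import Pool.Agent.Lib.MP_02db74_an.Main
import Pool.Agent.Lib.MP_02db74_an.Chain

/-!
Problem MP_02db74_an, question Q1, positive answer: for every `n ≥ 3` the optimal exponent of the
`W^{2,ε}` (Hessian measure) estimate in the class `S(lam, Lam)` is at most
`C_n (Lam / lam) ^ (1 - n)` for all large `Lam / lam`.
-/

namespace Pool.Agent.Results.MP_02db74_an.Q1Sharp

open Pool.Agent.Lib.MP_02db74_an

/-- Positive answer to Q1. The same bound holds for the exponents of the weaker estimate in which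
only paraboloids touching from below are considered, and for the estimate for supersolutions. -/
theorem result (n : ℕ) (hn : 3 ≤ n) :
    ∃ C K0 : ℝ, 0 < C ∧ ∀ lam Lam : ℝ, 0 < lam → lam ≤ Lam → K0 ≤ Lam / lam →
      epsStar n lam Lam ≤ C * (Lam / lam) ^ (1 - (n : ℝ)) ∧
      ∀ ε : ℝ, (Estimate n lam Lam ε ∨ EstimateBelow n lam Lam ε ∨ EstimateSuper n lam Lam ε) →
        ε ≤ C * (Lam / lam) ^ (1 - (n : ℝ)) := by
  obtain ⟨C, K0, hC, hK0, h⟩ := exists_reach hn
  refine ⟨4 * C, K0, by positivity, fun lam Lam hlam hLam hK => ?_⟩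
  set v0 : Fin n → ℝ := fun i => if i = ⟨0, by omega⟩ then 1 else -1 with hv0
  obtain ⟨c1, h0, h1, h2, h3⟩ := h (Lam / lam) hK v0
    (fun i => by simp only [hv0]; split_ifs <;> simp)
    ⟨⟨0, by omega⟩, by simp [hv0]⟩ ⟨⟨1, by omega⟩, by simp [hv0]⟩
  have hbelow : ∀ ε : ℝ, EstimateBelow n lam Lam ε → ε ≤ 4 * C * (Lam / lam) ^ (1 - (n : ℝ)) := by
    intro ε hε
    have h4 := eps_le_of_reach (by omega) hlam hLam
      (fun i => by simp only [hv0]; split_ifs <;> simp) h0 h1 h3 hε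
    linarith
  have hest : ∀ ε : ℝ,
      (Estimate n lam Lam ε ∨ EstimateBelow n lam Lam ε ∨ EstimateSuper n lam Lam ε) →
        ε ≤ 4 * C * (Lam / lam) ^ (1 - (n : ℝ)) := by
    rintro ε (hε | hε | hε)
    · exact hbelow ε hε.below
    · exact hbelow ε hε
    · exact hbelow ε hε.below
  refine ⟨?_, hest⟩
  refine Real.sSup_le (fun ε hε => hest ε (Or.inl hε.2)) ?_
  have : 0 < Lam / lam := hK0.trans_le hK
  positivity

end Pool.Agent.Results.MP_02db74_an.Q1Sharp
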